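import Pool.Agent.Q282.JB.Brown

/-!
# Means over products of finite sets
-/

set_option autoImplicit false
set_option linter.unusedSectionVars false

namespace Q282.PX

open Finset Q282.CL

/-- the indices with the value one -/
def ones {n : ℕ} (c : Fin n → Fin 3) : Finset (Fin n) := univ.filter fun j => c j = 1

/-- the first moment -/
noncomputable def kap {n : ℕ} (𝒞 : Finset (Fin n → Fin 3)) (r : Fin n → ℝ) : ℝ :=
  ∑ c ∈ 𝒞, if (ones c).card = 1 then ∑ j ∈ ones c, r j else 0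

/-- the second moment -/
def sig {n : ℕ} (𝒞 : Finset (Fin n → Fin 3)) : ℕ := ((𝒞 ×ˢ 𝒞).filter fun c => ones c.1 = ones c.2).card

section

variable {n : ℕ} {Ω : Fin n → Type} [∀ j, Fintype (Ω j)]

/-- sums of products -/
noncomputable def zz (𝒞 : Finset (Fin n → Fin 3)) (x : ∀ j, Ω j → ℝ) (ω : ∀ j, Ω j) : ℝ := ∑ c ∈ 𝒞, ∏ j ∈ ones c, x j (ω j)

variable [∀ j, Nonempty (Ω j)]

lemma av_set (S : Finset (Fin n)) (x : ∀ j, Ω j → ℝ) : av (fun ω : ∀ j, Ω j => ∏ j ∈ S, x j (ω j)) = ∏ j ∈ S, av (x j) := by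
  have h1 : (fun ω : ∀ j, Ω j => ∏ j ∈ S, x j (ω j)) = fun ω => ∏ j, (fun (j : Fin n) (a : Ω j) => if j ∈ S then x j a else 1) j (ω j) := by
    funext ω
    show _ = ∏ j, (if j ∈ S then x j (ω j) else 1)
    rw [prod_ite_mem, univ_inter]
  rw [h1, av_pi (fun (j : Fin n) (a : Ω j) => if j ∈ S then x j a else 1)]
  have h2 : ∀ j, av (fun a : Ω j => if j ∈ S then x j a else 1) = if j ∈ S then av (x j) else 1 := by
    intro j
    split_ifs with h
    · rfl
    · exact av_const _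
  rw [prod_congr rfl fun j _ => h2 j, prod_ite_mem, univ_inter]

lemma av_set2 (S S' : Finset (Fin n)) (x : ∀ j, Ω j → ℝ) : av (fun ω : ∀ j, Ω j => (∏ j ∈ S, x j (ω j)) * ∏ j ∈ S', x j (ω j)) =
    ∏ j, av (fun a : Ω j => (if j ∈ S then x j a else 1) * (if j ∈ S' then x j a else 1)) := by
  have h1 : (fun ω : ∀ j, Ω j => (∏ j ∈ S, x j (ω j)) * ∏ j ∈ S', x j (ω j)) =
      fun ω => ∏ j, (fun (j : Fin n) (a : Ω j) => (if j ∈ S then x j a else 1) * (if j ∈ S' then x j a else 1)) j (ω j) := by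
    funext ω
    show _ = ∏ j, ((if j ∈ S then x j (ω j) else 1) * (if j ∈ S' then x j (ω j) else 1))
    rw [prod_mul_distrib, prod_ite_mem, prod_ite_mem, univ_inter, univ_inter]
  rw [h1]
  exact av_pi (fun (j : Fin n) (a : Ω j) => (if j ∈ S then x j a else 1) * (if j ∈ S' then x j a else 1))

lemma prod_close (S : Finset (Fin n)) (e : Fin n → ℝ) (D s : ℝ) (hD : 0 ≤ D) (hs : 1 ≤ s) (he : ∀ j, |e j - 1| ≤ D / s) :
    |∏ j ∈ S, e j - 1| ≤ n * D * Real.exp (n * D) / s := by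
  have h1 := norm_prod_one_add_sub_one_le S (fun j => e j - 1)
  have h2 : ∏ j ∈ S, (1 + (e j - 1)) = ∏ j ∈ S, e j := prod_congr rfl fun j _ => by ring
  rw [h2, Real.norm_eq_abs] at h1
  refine h1.trans ?_
  have h3 : ∑ j ∈ S, ‖e j - 1‖ ≤ n * D / s := by
    refine (sum_le_sum (fun j _ => he j)).trans ?_
    rw [sum_const, nsmul_eq_mul, mul_div_assoc]
    refine mul_le_mul_of_nonneg_right ?_ (by positivity)
    have := card_le_univ S
    rw [Fintype.card_fin] at this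
    exact_mod_cast this
  have h4 : (0 : ℝ) ≤ n * D / s := by positivity
  have h5 : (n : ℝ) * D / s ≤ n * D := div_le_self (by positivity) hs
  have h6 := Real.exp_le_exp.2 h3
  have h7 := Q282.JB.exp_sub_one h4
  have h8 := mul_le_mul_of_nonneg_left (Real.exp_le_exp.2 h5) h4
  have h9 : (n : ℝ) * D / s * Real.exp (n * D) = n * D * Real.exp (n * D) / s := by ring
  linarith

variable {𝒞 : Finset (Fin n → Fin 3)} {x y : ∀ j, Ω j → ℝ} {r : Fin n → ℝ} {D s : ℝ}

lemma zz_le (hD : 1 ≤ D) (hx : ∀ j a, |x j a| ≤ D) (ω : ∀ j, Ω j) : |zz 𝒞 x ω| ≤ 𝒞.card * D ^ n := by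
  unfold zz
  refine (abs_sum_le_sum_abs _ _).trans ?_
  have h1 : ∀ c ∈ 𝒞, |∏ j ∈ ones c, x j (ω j)| ≤ D ^ n := by
    intro c _
    rw [abs_prod]
    refine (prod_le_prod (fun j _ => abs_nonneg _) fun j _ => hx j (ω j)).trans ?_
    rw [prod_const]
    refine pow_le_pow_right₀ hD ?_
    have := card_le_univ (ones c)
    rwa [Fintype.card_fin] at this
  refine (sum_le_sum h1).trans (le_of_eq ?_)
  rw [sum_const, nsmul_eq_mul]

lemma av_x_le (hs : 1 ≤ s) (hD : 1 ≤ D) (hr : ∀ j, 0 ≤ r j ∧ r j ≤ D) (hx1 : ∀ j, |av (x j) - r j / s| ≤ D / s ^ 2) (j : Fin n) :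
    |av (x j)| ≤ 2 * D / s := by
  have h1 : av (x j) = (av (x j) - r j / s) + r j / s := by ring
  rw [h1]
  refine (abs_add_le _ _).trans ?_
  have h2 : |r j / s| ≤ D / s := by
    rw [abs_of_nonneg (div_nonneg (hr j).1 (by linarith))]
    exact div_le_div_of_nonneg_right (hr j).2 (by linarith)
  have h3 : D / s ^ 2 ≤ D / s := div_le_div_of_nonneg_left (by linarith) (by linarith) (by
    calc s = s ^ 1 := (pow_one s).symm
      _ ≤ s ^ 2 := pow_le_pow_right₀ hs (by norm_num))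
  have h4 := hx1 j
  have h5 : 2 * D / s = D / s + D / s := by ring
  rw [h5]
  linarith

/-- the mean of the first term -/
lemma mean_one (hs : 1 ≤ s) (hD : 1 ≤ D) (hr : ∀ j, 0 ≤ r j ∧ r j ≤ D) (hx1 : ∀ j, |av (x j) - r j / s| ≤ D / s ^ 2)
    (hne : ∀ c ∈ 𝒞, (ones c).Nonempty) : |av (zz 𝒞 x) - kap 𝒞 r / s| ≤ 𝒞.card * (2 * D) ^ n / s ^ 2 := by
  unfold zz kap
  rw [av_sum, sum_div, ← sum_sub_distrib]
  refine (abs_sum_le_sum_abs _ _).trans ?_
  have hs0 : 0 < s := by linarith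
  have h1 : ∀ c ∈ 𝒞, |av (fun ω : ∀ j, Ω j => ∏ j ∈ ones c, x j (ω j)) - (if (ones c).card = 1 then ∑ j ∈ ones c, r j else 0) / s| ≤
      (2 * D) ^ n / s ^ 2 := by
    intro c hc
    have hn1 : 1 ≤ n := by
      obtain ⟨j, _⟩ := hne c hc
      have := j.2
      omega
    rw [av_set]
    split_ifs with h
    · obtain ⟨j, hj⟩ := card_eq_one.1 h
      rw [hj, prod_singleton, sum_singleton]
      refine (hx1 j).trans (div_le_div_of_nonneg_right ?_ (by positivity))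
      calc D ≤ (2 * D) ^ 1 := by rw [pow_one]; linarith
        _ ≤ _ := pow_le_pow_right₀ (by linarith) hn1
    · have h2 : 2 ≤ (ones c).card := by
        have := card_pos.2 (hne c hc)
        omega
      rw [zero_div, sub_zero, abs_prod]
      refine (prod_le_prod (fun j _ => abs_nonneg _) fun j _ => av_x_le hs hD hr hx1 j).trans ?_
      rw [prod_const, div_pow]
      have h3 : (ones c).card ≤ n := by
        have := card_le_univ (ones c)
        rwa [Fintype.card_fin] at this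
      exact div_le_div₀ (by positivity) (pow_le_pow_right₀ (by linarith) h3) (by positivity) (pow_le_pow_right₀ hs h2)
  refine (sum_le_sum h1).trans (le_of_eq ?_)
  rw [sum_const, nsmul_eq_mul, mul_div_assoc]

/-- the mean of the second term -/
lemma mean_two (hs : 1 ≤ s) (hD : 1 ≤ D) (hy1 : ∀ j, |av (y j) - 1| ≤ D / s) :
    |av (zz 𝒞 y) - 𝒞.card| ≤ 𝒞.card * (n * D * Real.exp (n * D)) / s := by
  unfold zz
  have h0 : (𝒞.card : ℝ) = ∑ c ∈ 𝒞, (1 : ℝ) := by rw [sum_const, nsmul_eq_mul, mul_one]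
  rw [av_sum]
  conv_lhs => rw [h0]
  rw [← sum_sub_distrib]
  refine (abs_sum_le_sum_abs _ _).trans ?_
  have h1 : ∀ c ∈ 𝒞, |av (fun ω : ∀ j, Ω j => ∏ j ∈ ones c, y j (ω j)) - 1| ≤ n * D * Real.exp (n * D) / s := by
    intro c _
    rw [av_set]
    exact prod_close (ones c) (fun j => av (y j)) D s (by linarith) hs hy1
  refine (sum_le_sum h1).trans (le_of_eq ?_)
  rw [sum_const, nsmul_eq_mul]
  ring

/-- the mean square of the first term -/
lemma mean_sq (hs : 1 ≤ s) (hD : 1 ≤ D) (hx : ∀ j a, |x j a| ≤ D) (hr : ∀ j, 0 ≤ r j ∧ r j ≤ D)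
    (hx1 : ∀ j, |av (x j) - r j / s| ≤ D / s ^ 2) (hx2 : ∀ j, |av (fun a => x j a ^ 2) - 1| ≤ D / s) :
    |av (fun ω => zz 𝒞 x ω ^ 2) - sig 𝒞| ≤ (𝒞.card : ℝ) ^ 2 * ((2 * D ^ 2) ^ n + n * D * Real.exp (n * D)) / s := by
  classical
  have hs0 : 0 < s := by linarith
  have h1 : (fun ω => zz 𝒞 x ω ^ 2) = fun ω => ∑ c ∈ 𝒞 ×ˢ 𝒞, ((∏ j ∈ ones c.1, x j (ω j)) * ∏ j ∈ ones c.2, x j (ω j)) := by
    funext ω
    unfold zz
    rw [sq, sum_mul_sum, sum_product]
  have h2 : (sig 𝒞 : ℝ) = ∑ c ∈ 𝒞 ×ˢ 𝒞, if ones c.1 = ones c.2 then (1 : ℝ) else 0 := by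
    unfold sig
    rw [← sum_filter, sum_const, nsmul_eq_mul, mul_one]
  rw [h1, av_sum, h2, ← sum_sub_distrib]
  refine (abs_sum_le_sum_abs _ _).trans ?_
  have hE0 : 0 ≤ (n : ℝ) * D * Real.exp (n * D) := by positivity
  have hD2 : 1 ≤ 2 * D ^ 2 := by nlinarith
  have h3 : ∀ c ∈ 𝒞 ×ˢ 𝒞, |av (fun ω : ∀ j, Ω j => (∏ j ∈ ones c.1, x j (ω j)) * ∏ j ∈ ones c.2, x j (ω j)) -
      (if ones c.1 = ones c.2 then (1 : ℝ) else 0)| ≤ ((2 * D ^ 2) ^ n + n * D * Real.exp (n * D)) / s := by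
    intro c _
    split_ifs with h
    · have h4 : (fun ω : ∀ j, Ω j => (∏ j ∈ ones c.1, x j (ω j)) * ∏ j ∈ ones c.2, x j (ω j)) =
          fun ω => ∏ j ∈ ones c.1, (fun (j : Fin n) (a : Ω j) => x j a ^ 2) j (ω j) := by
        funext ω
        rw [← h, ← prod_mul_distrib]
        exact prod_congr rfl fun j _ => by ring
      rw [h4, av_set (ones c.1) (fun (j : Fin n) (a : Ω j) => x j a ^ 2)]
      refine (prod_close (ones c.1) (fun j => av (fun a => x j a ^ 2)) D s (by linarith) hs hx2).trans ?_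
      refine div_le_div_of_nonneg_right ?_ hs0.le
      have : 0 ≤ (2 * D ^ 2) ^ n := by positivity
      linarith
    · rw [sub_zero, av_set2, abs_prod]
      obtain ⟨i, hi⟩ : ∃ i, ¬ (i ∈ ones c.1 ↔ i ∈ ones c.2) := by
        by_contra hcon
        push Not at hcon
        exact h (Finset.ext hcon)
      have h5 : ∀ j, |av (fun a : Ω j => (if j ∈ ones c.1 then x j a else 1) * (if j ∈ ones c.2 then x j a else 1))| ≤ 2 * D ^ 2 := by
        intro j
        have h6 : ∀ a : Ω j, |(if j ∈ ones c.1 then x j a else 1) * (if j ∈ ones c.2 then x j a else 1)| ≤ 2 * D ^ 2 := by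
          intro a
          rw [abs_mul]
          have h7 : ∀ p : Prop, [Decidable p] → |(if p then x j a else 1)| ≤ D := by
            intro p _
            split_ifs
            · exact hx j a
            · rw [abs_one]
              exact hD
          calc _ ≤ D * D := mul_le_mul (h7 _) (h7 _) (abs_nonneg _) (by linarith)
            _ ≤ _ := by nlinarith
        refine (abs_av_le _).trans ?_
        refine (av_mono h6).trans (le_of_eq (av_const _))
      have h6 : |av (fun a : Ω i => (if i ∈ ones c.1 then x i a else 1) * (if i ∈ ones c.2 then x i a else 1))| ≤ 2 * D ^ 2 / s := by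
        have h7 : (fun a : Ω i => (if i ∈ ones c.1 then x i a else 1) * (if i ∈ ones c.2 then x i a else 1)) = x i := by
          funext a
          by_cases h8 : i ∈ ones c.1
          · have h9 : i ∉ ones c.2 := fun h9 => hi ⟨fun _ => h9, fun _ => h8⟩
            rw [if_pos h8, if_neg h9, mul_one]
          · have h9 : i ∈ ones c.2 := by
              by_contra h9
              exact hi ⟨fun h => absurd h h8, fun h => absurd h h9⟩
            rw [if_neg h8, if_pos h9, one_mul]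
        rw [h7]
        refine (av_x_le hs hD hr hx1 i).trans (div_le_div_of_nonneg_right ?_ hs0.le)
        nlinarith
      rw [← mul_prod_erase univ _ (mem_univ i)]
      have h7 : ∏ j ∈ univ.erase i, |av (fun a : Ω j => (if j ∈ ones c.1 then x j a else 1) * (if j ∈ ones c.2 then x j a else 1))| ≤
          (2 * D ^ 2) ^ (n - 1) := by
        refine (prod_le_prod (fun j _ => abs_nonneg _) fun j _ => h5 j).trans (le_of_eq ?_)
        rw [prod_const, card_erase_of_mem (mem_univ i), card_univ, Fintype.card_fin]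
      have h8 := mul_le_mul h6 h7 (prod_nonneg fun j _ => abs_nonneg _) (by positivity)
      refine h8.trans ?_
      have hn1 : n - 1 + 1 = n := by
        have := i.2
        omega
      have h9 : 2 * D ^ 2 / s * (2 * D ^ 2) ^ (n - 1) = (2 * D ^ 2) ^ n / s := by
        rw [← hn1, pow_succ]
        simp only [Nat.add_sub_cancel]
        ring
      rw [h9]
      exact div_le_div_of_nonneg_right (by linarith) hs0.le
  refine (sum_le_sum h3).trans (le_of_eq ?_)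
  rw [sum_const, nsmul_eq_mul, card_product, mul_div_assoc]
  push_cast
  ring

/-- the local moments -/
theorem main_abs (n : ℕ) (𝒞 : Finset (Fin n → Fin 3)) (hne : ∀ c ∈ 𝒞, (ones c).Nonempty) (r : Fin n → ℝ) (D M : ℝ) (hD : 1 ≤ D)
    (hM : 0 ≤ M) (hr : ∀ j, 0 ≤ r j ∧ r j ≤ D) : ∃ B : ℝ, 0 ≤ B ∧ ∀ (Ω : Fin n → Type) [∀ j, Fintype (Ω j)] [∀ j, Nonempty (Ω j)]
    (s : ℝ) (_ : 1 ≤ s) (x y : ∀ j, Ω j → ℝ) (bad : ∀ j, Ω j → Prop) [∀ j, DecidablePred (bad j)] (G : (∀ j, Ω j) → ℝ),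
    (∀ j a, |x j a| ≤ D) → (∀ j a, |y j a| ≤ D) → (∀ j, |av (x j) - r j / s| ≤ D / s ^ 2) →
    (∀ j, |av (fun a => x j a ^ 2) - 1| ≤ D / s) → (∀ j, |av (y j) - 1| ≤ D / s) →
    (∀ j, av (fun a => if bad j a then (1 : ℝ) else 0) ≤ D / s ^ 2) →
    (∀ ω, (∃ j, bad j (ω j)) → G ω = 0) → (∀ ω, (∀ j, ¬ bad j (ω j)) → |G ω - (zz 𝒞 x ω / s + zz 𝒞 y ω / (2 * s ^ 2))| ≤ M / s ^ 3) →
    (∀ ω, |G ω| ≤ B / s) ∧ |av G - (kap 𝒞 r + 𝒞.card / 2) / s ^ 2| ≤ B / s ^ 3 ∧ |av (fun ω => G ω ^ 2) - sig 𝒞 / s ^ 2| ≤ B / s ^ 3 := by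
  obtain ⟨Z, hZ⟩ : ∃ Z : ℝ, Z = 𝒞.card * D ^ n := ⟨_, rfl⟩
  have hZ0 : 0 ≤ Z := by rw [hZ]; positivity
  obtain ⟨E₁, hE₁⟩ : ∃ E₁ : ℝ, E₁ = 𝒞.card * (2 * D) ^ n := ⟨_, rfl⟩
  obtain ⟨E₂, hE₂⟩ : ∃ E₂ : ℝ, E₂ = 𝒞.card * (n * D * Real.exp (n * D)) := ⟨_, rfl⟩
  obtain ⟨E₃, hE₃⟩ : ∃ E₃ : ℝ, E₃ = (𝒞.card : ℝ) ^ 2 * ((2 * D ^ 2) ^ n + n * D * Real.exp (n * D)) := ⟨_, rfl⟩
  have h1' : 0 ≤ E₁ := by rw [hE₁]; positivity
  have h2' : 0 ≤ E₂ := by rw [hE₂]; positivity
  have h3' : 0 ≤ E₃ := by rw [hE₃]; positivity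
  refine ⟨(2 * Z + M) + (M + n * D * (2 * Z) + E₁ + E₂) + ((Z + M) * (3 * Z + M) + n * D * Z ^ 2 + E₃), by positivity, ?_⟩
  intro Ω _ _ s hs x y bad _ G hx hy hx1 hx2 hy1 hbad hG0 hG
  have hs0 : 0 < s := by linarith
  have hs2 : 1 ≤ s ^ 2 := one_le_pow₀ hs
  have hs23 : s ^ 2 ≤ s ^ 3 := pow_le_pow_right₀ hs (by norm_num)
  have hs12 : s ≤ s ^ 2 := by
    calc s = s ^ 1 := (pow_one s).symm
      _ ≤ s ^ 2 := pow_le_pow_right₀ hs (by norm_num)
  have hzx : ∀ ω, |zz 𝒞 x ω| ≤ Z := fun ω => by rw [hZ]; exact zz_le hD hx ω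
  have hzy : ∀ ω, |zz 𝒞 y ω| ≤ Z := fun ω => by rw [hZ]; exact zz_le hD hy ω
  obtain ⟨W, hW⟩ : ∃ W : (∀ j, Ω j) → ℝ, W = fun ω => zz 𝒞 x ω / s + zz 𝒞 y ω / (2 * s ^ 2) := ⟨_, rfl⟩
  have hzys : ∀ ω, |zz 𝒞 y ω / (2 * s ^ 2)| ≤ Z / s ^ 2 := by
    intro ω
    rw [abs_div, abs_of_pos (by positivity : 0 < 2 * s ^ 2)]
    exact div_le_div₀ hZ0 (hzy ω) (by positivity) (by linarith)
  have hzxs : ∀ ω, |zz 𝒞 x ω / s| ≤ Z / s := by
    intro ω
    rw [abs_div, abs_of_pos hs0]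
    exact div_le_div_of_nonneg_right (hzx ω) hs0.le
  have hWb : ∀ ω, |W ω| ≤ 2 * Z / s := by
    intro ω
    rw [hW]
    refine (abs_add_le _ _).trans ?_
    have h1 : Z / s ^ 2 ≤ Z / s := div_le_div_of_nonneg_left hZ0 hs0 hs12
    have h2 : 2 * Z / s = Z / s + Z / s := by ring
    rw [h2]
    linarith [hzys ω, hzxs ω]
  have hM3 : M / s ^ 3 ≤ M / s := div_le_div_of_nonneg_left hM hs0 (hs12.trans hs23)
  have hb1 : ∀ ω, |G ω| ≤ (2 * Z + M) / s := by
    intro ω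
    by_cases hb : ∃ j, bad j (ω j)
    · rw [hG0 ω hb, abs_zero]
      positivity
    · push Not at hb
      have h1 : G ω = (G ω - W ω) + W ω := by ring
      rw [h1]
      refine (abs_add_le _ _).trans ?_
      have h2 : |G ω - W ω| ≤ M / s ^ 3 := by
        rw [hW]
        exact hG ω hb
      have h3 : (2 * Z + M) / s = 2 * Z / s + M / s := by ring
      rw [h3]
      linarith [hWb ω]
  -- the proportion of the exceptions
  have hexc : av (fun ω : ∀ j, Ω j => if ∃ j, bad j (ω j) then (1 : ℝ) else 0) ≤ n * D / s ^ 2 := by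
    classical
    have h1 : ∀ ω : ∀ j, Ω j, (if ∃ j, bad j (ω j) then (1 : ℝ) else 0) ≤ ∑ j, if bad j (ω j) then (1 : ℝ) else 0 := by
      intro ω
      split_ifs with h
      · obtain ⟨j, hj⟩ := h
        have h2 := single_le_sum (f := fun j => if bad j (ω j) then (1 : ℝ) else 0) (fun j _ => by
          show 0 ≤ (if bad j (ω j) then (1 : ℝ) else 0)
          split_ifs <;> norm_num) (mem_univ j)
        simp only [if_pos hj] at h2
        exact h2
      · exact sum_nonneg fun j _ => by split_ifs <;> norm_num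
    refine (av_mono h1).trans ?_
    rw [av_sum]
    have h2 : ∀ j : Fin n, av (fun ω : ∀ j, Ω j => if bad j (ω j) then (1 : ℝ) else 0) ≤ D / s ^ 2 := by
      intro j
      have h3 := av_set {j} (fun (j : Fin n) (a : Ω j) => if bad j a then (1 : ℝ) else 0)
      simp only [prod_singleton] at h3
      rw [h3]
      exact hbad j
    refine (sum_le_sum fun j _ => h2 j).trans (le_of_eq ?_)
    rw [sum_const, card_univ, Fintype.card_fin, nsmul_eq_mul, mul_div_assoc]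
  have hall : 0 ≤ (2 * Z + M) ∧ 0 ≤ (M + n * D * (2 * Z) + E₁ + E₂) ∧ 0 ≤ ((Z + M) * (3 * Z + M) + n * D * Z ^ 2 + E₃) :=
    ⟨by positivity, by positivity, by positivity⟩
  refine ⟨fun ω => (hb1 ω).trans (div_le_div_of_nonneg_right (by linarith [hall.2.1, hall.2.2]) hs0.le), ?_, ?_⟩
  · have hGW : |av G - av W| ≤ (M + n * D * (2 * Z)) / s ^ 3 := by
      rw [← av_sub]
      refine (abs_av_le _).trans ?_
      have h1 : ∀ ω, |G ω - W ω| ≤ M / s ^ 3 + 2 * Z / s * (if ∃ j, bad j (ω j) then (1 : ℝ) else 0) := by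
        intro ω
        split_ifs with hb
        · rw [hG0 ω hb, zero_sub, abs_neg, mul_one]
          have : 0 ≤ M / s ^ 3 := by positivity
          linarith [hWb ω]
        · push Not at hb
          rw [mul_zero, add_zero, hW]
          exact hG ω hb
      refine (av_mono h1).trans ?_
      rw [av_add, av_const, av_mul]
      have h2 := mul_le_mul_of_nonneg_left hexc (by positivity : 0 ≤ 2 * Z / s)
      have h3 : (M + n * D * (2 * Z)) / s ^ 3 = M / s ^ 3 + 2 * Z / s * (n * D / s ^ 2) := by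
        field_simp
      rw [h3]
      linarith
    have hWm : av W = av (zz 𝒞 x) / s + av (zz 𝒞 y) / (2 * s ^ 2) := by
      rw [hW]
      have h1 : (fun ω => zz 𝒞 x ω / s + zz 𝒞 y ω / (2 * s ^ 2)) = fun ω => (1 / s) * zz 𝒞 x ω + (1 / (2 * s ^ 2)) * zz 𝒞 y ω := by
        funext ω
        ring
      rw [h1, av_add, av_mul, av_mul]
      ring
    have h1 := mean_one (𝒞 := 𝒞) hs hD hr hx1 hne
    have h2 := mean_two (𝒞 := 𝒞) (n := n) hs hD hy1
    rw [← hE₁] at h1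
    rw [← hE₂] at h2
    have h3 : av G - (kap 𝒞 r + 𝒞.card / 2) / s ^ 2 = (av G - av W) + ((av (zz 𝒞 x) - kap 𝒞 r / s) / s +
        (av (zz 𝒞 y) - 𝒞.card) / (2 * s ^ 2)) := by
      rw [hWm]
      field_simp
      ring
    rw [h3]
    refine (abs_add_le _ _).trans ?_
    have h4 : |(av (zz 𝒞 x) - kap 𝒞 r / s) / s + (av (zz 𝒞 y) - 𝒞.card) / (2 * s ^ 2)| ≤ (E₁ + E₂) / s ^ 3 := by
      refine (abs_add_le _ _).trans ?_
      have h5 : |(av (zz 𝒞 x) - kap 𝒞 r / s) / s| ≤ E₁ / s ^ 3 := by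
        rw [abs_div, abs_of_pos hs0, div_le_iff₀ hs0]
        refine h1.trans (le_of_eq ?_)
        field_simp
      have h6 : |(av (zz 𝒞 y) - 𝒞.card) / (2 * s ^ 2)| ≤ E₂ / s ^ 3 := by
        rw [abs_div, abs_of_pos (by positivity : 0 < 2 * s ^ 2), div_le_iff₀ (by positivity)]
        refine h2.trans ?_
        have h7 : E₂ / s ^ 3 * (2 * s ^ 2) = 2 * (E₂ / s) := by
          field_simp
        rw [h7]
        have : 0 ≤ E₂ / s := by positivity
        linarith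
      have h7 : (E₁ + E₂) / s ^ 3 = E₁ / s ^ 3 + E₂ / s ^ 3 := by ring
      rw [h7]
      linarith
    have h5 : (M + n * D * (2 * Z)) / s ^ 3 + (E₁ + E₂) / s ^ 3 ≤
        ((2 * Z + M) + (M + n * D * (2 * Z) + E₁ + E₂) + ((Z + M) * (3 * Z + M) + n * D * Z ^ 2 + E₃)) / s ^ 3 := by
      rw [← add_div]
      exact div_le_div_of_nonneg_right (by linarith [hall.1, hall.2.2]) (by positivity)
    linarith
  · have h1 : ∀ ω, |G ω ^ 2 - (zz 𝒞 x ω / s) ^ 2| ≤ (Z + M) * (3 * Z + M) / s ^ 3 +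
        Z ^ 2 / s ^ 2 * (if ∃ j, bad j (ω j) then (1 : ℝ) else 0) := by
      intro ω
      split_ifs with hb
      · rw [hG0 ω hb, mul_one, zero_pow (by norm_num), zero_sub, abs_neg, abs_of_nonneg (sq_nonneg _)]
        have h2 := pow_le_pow_left₀ (abs_nonneg _) (hzxs ω) 2
        rw [sq_abs, div_pow Z s] at h2
        have : 0 ≤ (Z + M) * (3 * Z + M) / s ^ 3 := by positivity
        linarith
      · push Not at hb
        have h2 : G ω ^ 2 - (zz 𝒞 x ω / s) ^ 2 = (G ω - zz 𝒞 x ω / s) * (G ω + zz 𝒞 x ω / s) := by ring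
        rw [h2, abs_mul, mul_zero, add_zero]
        have h3 : |G ω - zz 𝒞 x ω / s| ≤ (Z + M) / s ^ 2 := by
          have h4 := hG ω hb
          have h5 : G ω - zz 𝒞 x ω / s = (G ω - (zz 𝒞 x ω / s + zz 𝒞 y ω / (2 * s ^ 2))) + zz 𝒞 y ω / (2 * s ^ 2) := by ring
          rw [h5]
          refine (abs_add_le _ _).trans ?_
          have h6 : M / s ^ 3 ≤ M / s ^ 2 := div_le_div_of_nonneg_left hM (by positivity) hs23
          have h7 : (Z + M) / s ^ 2 = Z / s ^ 2 + M / s ^ 2 := by ring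
          rw [h7]
          linarith [hzys ω]
        have h4 : |G ω + zz 𝒞 x ω / s| ≤ (3 * Z + M) / s := by
          refine (abs_add_le _ _).trans ?_
          have h5 : (3 * Z + M) / s = (2 * Z + M) / s + Z / s := by ring
          rw [h5]
          exact add_le_add (hb1 ω) (hzxs ω)
        have h5 : (Z + M) * (3 * Z + M) / s ^ 3 = (Z + M) / s ^ 2 * ((3 * Z + M) / s) := by
          field_simp
        rw [h5]
        exact mul_le_mul h3 h4 (abs_nonneg _) (by positivity)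
    have h2 : |av (fun ω => G ω ^ 2) - av (fun ω => (zz 𝒞 x ω / s) ^ 2)| ≤ ((Z + M) * (3 * Z + M) + n * D * Z ^ 2) / s ^ 3 := by
      rw [← av_sub]
      refine (abs_av_le _).trans ((av_mono h1).trans ?_)
      rw [av_add, av_const, av_mul]
      have h3 := mul_le_mul_of_nonneg_left hexc (by positivity : 0 ≤ Z ^ 2 / s ^ 2)
      have h4 : Z ^ 2 / s ^ 2 * (n * D / s ^ 2) ≤ n * D * Z ^ 2 / s ^ 3 := by
        have h5 : Z ^ 2 / s ^ 2 * (n * D / s ^ 2) = n * D * Z ^ 2 / s ^ 4 := by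
          field_simp
        rw [h5]
        exact div_le_div_of_nonneg_left (by positivity) (by positivity) (pow_le_pow_right₀ hs (by norm_num))
      have h6 : ((Z + M) * (3 * Z + M) + n * D * Z ^ 2) / s ^ 3 = (Z + M) * (3 * Z + M) / s ^ 3 + n * D * Z ^ 2 / s ^ 3 := by ring
      rw [h6]
      linarith
    have h3 := mean_sq (𝒞 := 𝒞) hs hD hx hr hx1 hx2
    rw [← hE₃] at h3
    have h4 : av (fun ω => (zz 𝒞 x ω / s) ^ 2) = av (fun ω => zz 𝒞 x ω ^ 2) / s ^ 2 := by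
      have h5 : (fun ω => (zz 𝒞 x ω / s) ^ 2) = fun ω => (1 / s ^ 2) * zz 𝒞 x ω ^ 2 := by
        funext ω
        rw [div_pow]
        ring
      rw [h5, av_mul]
      ring
    have h5 : |av (fun ω => (zz 𝒞 x ω / s) ^ 2) - sig 𝒞 / s ^ 2| ≤ E₃ / s ^ 3 := by
      rw [h4, ← sub_div, abs_div, abs_of_pos (by positivity : 0 < s ^ 2), div_le_iff₀ (by positivity)]
      refine h3.trans (le_of_eq ?_)
      field_simp
    have h6 : av (fun ω => G ω ^ 2) - sig 𝒞 / s ^ 2 = (av (fun ω => G ω ^ 2) - av (fun ω => (zz 𝒞 x ω / s) ^ 2)) +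
        (av (fun ω => (zz 𝒞 x ω / s) ^ 2) - sig 𝒞 / s ^ 2) := by ring
    rw [h6]
    refine (abs_add_le _ _).trans ?_
    have h7 : ((Z + M) * (3 * Z + M) + n * D * Z ^ 2) / s ^ 3 + E₃ / s ^ 3 ≤
        ((2 * Z + M) + (M + n * D * (2 * Z) + E₁ + E₂) + ((Z + M) * (3 * Z + M) + n * D * Z ^ 2 + E₃)) / s ^ 3 := by
      rw [← add_div]
      exact div_le_div_of_nonneg_right (by linarith [hall.1, hall.2.1]) (by positivity)
    linarith

end

end Q282.PX
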