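import Pool.Agent.Q282.PX.Defs

/-!
# The number of the types, and marginals of boxes
-/

set_option autoImplicit false
set_option linter.unusedSectionVars false

namespace Q282.PX

open Finset

section

variable {n : ℕ}

lemma fin3 (x : Fin 3) : x = 0 ∨ x = 1 ∨ x = 2 := by fin_cases x <;> simp

/-- the types with exactly one factor of type one -/
lemma card_one (m : ℕ) (hm : 1 ≤ m) (j : Fin n) : ((types n (2 * m - 1)).filter fun c => ones c = {j}).card = (n - 1).choose (m - 1) := by
  classical
  have h1 : (powersetCard (m - 1) ((univ : Finset (Fin n)).erase j)).card = (n - 1).choose (m - 1) := by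
    rw [card_powersetCard, card_erase_of_mem (mem_univ j), card_univ, Fintype.card_fin]
  rw [← h1]
  refine card_bij' (fun c _ => twos c) (fun A _ => fun i => if i = j then 1 else if i ∈ A then 2 else 0) ?_ ?_ ?_ ?_
  · intro c hc
    rw [mem_filter] at hc
    obtain ⟨h2, -⟩ := types_odd hm hc.1
    rw [hc.2, card_singleton] at h2
    rw [mem_powersetCard]
    refine ⟨?_, by omega⟩
    intro i hi
    rw [mem_erase]
    refine ⟨?_, mem_univ _⟩
    rintro rfl
    have h3 : i ∈ ones c := by rw [hc.2]; exact mem_singleton_self i
    unfold ones at h3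
    unfold twos at hi
    rw [mem_filter] at h3 hi
    rw [h3.2] at hi
    exact absurd hi.2 (by decide)
  · intro A hA
    rw [mem_powersetCard] at hA
    have h3 : ones (fun i => if i = j then (1 : Fin 3) else if i ∈ A then 2 else 0) = {j} := by
      ext i
      unfold ones
      rw [mem_filter, mem_singleton]
      constructor
      · rintro ⟨-, h⟩
        by_contra hne
        beta_reduce at h
        rw [if_neg hne] at h
        split_ifs at h
        · exact absurd h (by decide)
        · exact absurd h (by decide)
      · intro h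
        exact ⟨mem_univ _, if_pos h⟩
    have h4 : twos (fun i => if i = j then (1 : Fin 3) else if i ∈ A then 2 else 0) = A := by
      ext i
      unfold twos
      rw [mem_filter]
      constructor
      · rintro ⟨-, h⟩
        by_contra hne
        beta_reduce at h
        rw [if_neg hne] at h
        split_ifs at h
        · exact absurd h (by decide)
        · exact absurd h (by decide)
      · intro h
        refine ⟨mem_univ _, ?_⟩
        have h5 := hA.1 h
        rw [mem_erase] at h5
        show (if i = j then (1 : Fin 3) else if i ∈ A then 2 else 0) = 2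
        rw [if_neg h5.1, if_pos h]
    rw [mem_filter]
    refine ⟨?_, h3⟩
    unfold types
    rw [mem_filter, sum_types, h3, h4, card_singleton, hA.2]
    exact ⟨mem_univ _, by omega⟩
  · intro c hc
    rw [mem_filter] at hc
    funext i
    show (if i = j then (1 : Fin 3) else if i ∈ twos c then 2 else 0) = c i
    have h3 : i = j ↔ c i = 1 := by
      have : i ∈ ones c ↔ i = j := by rw [hc.2, mem_singleton]
      rw [← this]
      unfold ones
      rw [mem_filter]
      simp
    have h4 : i ∈ twos c ↔ c i = 2 := by
      unfold twos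
      rw [mem_filter]
      simp
    rcases fin3 (c i) with h | h | h
    · rw [if_neg (by rw [h3, h]; decide), if_neg (by rw [h4, h]; decide), h]
    · rw [if_pos (h3.2 h), h]
    · rw [if_neg (by rw [h3, h]; decide), if_pos (h4.2 h), h]
  · intro A hA
    rw [mem_powersetCard] at hA
    ext i
    unfold twos
    rw [mem_filter]
    constructor
    · rintro ⟨-, h⟩
      by_contra hne
      beta_reduce at h
      rw [if_neg hne] at h
      split_ifs at h
      · exact absurd h (by decide)
      · exact absurd h (by decide)
    · intro h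
      refine ⟨mem_univ _, ?_⟩
      have h5 := hA.1 h
      rw [mem_erase] at h5
      show (if i = j then (1 : Fin 3) else if i ∈ A then 2 else 0) = 2
      rw [if_neg h5.1, if_pos h]

/-- the contribution of the marked points -/
theorem kap_eq (m : ℕ) (hm : 1 ≤ m) (r : Fin n → ℝ) : kap (types n (2 * m - 1)) r = (n - 1).choose (m - 1) * ∑ j, r j := by
  classical
  have h1 : ∀ c ∈ types n (2 * m - 1), (if (ones c).card = 1 then ∑ j ∈ ones c, r j else 0) = ∑ j, if ones c = {j} then r j else 0 := by
    intro c _
    split_ifs with h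
    · obtain ⟨i, hi⟩ := card_eq_one.1 h
      rw [hi, sum_singleton, sum_eq_single i]
      · rw [if_pos rfl]
      · intro j _ hj
        rw [if_neg fun h => hj (singleton_injective h).symm]
      · intro h
        exact absurd (mem_univ i) h
    · symm
      refine sum_eq_zero fun j _ => ?_
      rw [if_neg]
      intro h2
      exact h (by rw [h2, card_singleton])
  unfold kap
  rw [sum_congr rfl h1, sum_comm, mul_sum]
  refine sum_congr rfl fun j _ => ?_
  rw [← sum_filter, sum_const, card_one m hm j, nsmul_eq_mul]

lemma sig_pos (m : ℕ) (hm : 1 ≤ m) (hmn : m ≤ n) : 0 < sig (types n (2 * m - 1)) := by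
  classical
  obtain ⟨j⟩ : Nonempty (Fin n) := ⟨⟨0, by omega⟩⟩
  have h1 : 0 < ((types n (2 * m - 1)).filter fun c => ones c = {j}).card := by
    rw [card_one m hm j]
    exact Nat.choose_pos (by omega)
  obtain ⟨c, hc⟩ := card_pos.1 h1
  rw [mem_filter] at hc
  unfold sig
  refine card_pos.2 ⟨(c, c), ?_⟩
  rw [mem_filter, mem_product]
  exact ⟨⟨hc.1, hc.1⟩, rfl⟩

end

section

open Q282.GK (kbox)

variable {κ κ' : Type} [Fintype κ] [DecidableEq κ] [Fintype κ'] [DecidableEq κ']

lemma kbox_card (N : κ → ℤ) (L : κ → ℕ) : (kbox N L).card = ∏ k, L k := by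
  unfold kbox
  rw [Fintype.card_piFinset]
  refine prod_congr rfl fun k _ => ?_
  rw [Int.card_Ico]
  omega

/-- the marginals of a box -/
theorem kbox_marg (e : κ' → κ) (he : Function.Injective e) (N : κ → ℤ) (L : κ → ℕ) (P : (κ' → ℤ) → Prop) [DecidablePred P] :
    ((kbox N L).filter fun n => P (fun k => n (e k))).card * ∏ k, L (e k) =
      ((kbox (fun k => N (e k)) (fun k => L (e k))).filter P).card * ∏ k, L k := by
  classical
  obtain ⟨w, hw⟩ : ∃ w : ℕ, w = ∏ k, (if k ∈ Set.range e then 1 else L k) := ⟨_, rfl⟩
  have hfib : ∀ n' ∈ kbox (fun k => N (e k)) (fun k => L (e k)), ((kbox N L).filter fun n => (fun k => n (e k)) = n').card = w := by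
    intro n' hn'
    have hn'' : ∀ k, n' k ∈ Ico (N (e k)) (N (e k) + L (e k)) := by
      unfold kbox at hn'
      rw [Fintype.mem_piFinset] at hn'
      exact hn'
    obtain ⟨S, hS⟩ : ∃ S : κ → Finset ℤ, S = fun k => (Ico (N k) (N k + L k)).filter fun z => ∀ k', e k' = k → z = n' k' := ⟨_, rfl⟩
    have h1 : (kbox N L).filter (fun n => (fun k => n (e k)) = n') = Fintype.piFinset S := by
      ext n
      unfold kbox
      rw [mem_filter, Fintype.mem_piFinset, Fintype.mem_piFinset, hS]
      simp only [mem_filter]
      constructor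
      · rintro ⟨h2, h3⟩ k
        refine ⟨h2 k, ?_⟩
        rintro k' rfl
        exact congrFun h3 k'
      · intro h2
        exact ⟨fun k => (h2 k).1, funext fun k' => (h2 (e k')).2 k' rfl⟩
    rw [h1, Fintype.card_piFinset, hw]
    refine prod_congr rfl fun k _ => ?_
    rw [hS]
    by_cases hk : k ∈ Set.range e
    · rw [if_pos hk]
      obtain ⟨k', rfl⟩ := hk
      rw [card_eq_one]
      refine ⟨n' k', ?_⟩
      ext z
      show z ∈ (Ico (N (e k')) (N (e k') + L (e k'))).filter (fun z => ∀ k'', e k'' = e k' → z = n' k'') ↔ _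
      rw [mem_filter, mem_singleton]
      constructor
      · rintro ⟨-, h2⟩
        exact h2 k' rfl
      · rintro rfl
        refine ⟨hn'' k', ?_⟩
        intro k'' hk''
        rw [he hk'']
    · rw [if_neg hk]
      show ((Ico (N k) (N k + L k)).filter (fun z => ∀ k', e k' = k → z = n' k')).card = L k
      rw [filter_true_of_mem]
      · rw [Int.card_Ico]
        omega
      · intro z _ k' hk'
        exact absurd ⟨k', hk'⟩ hk
  have hmaps : ∀ n ∈ kbox N L, (fun k => n (e k)) ∈ kbox (fun k => N (e k)) (fun k => L (e k)) := by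
    intro n hn
    unfold kbox at hn ⊢
    rw [Fintype.mem_piFinset] at hn ⊢
    exact fun k => hn (e k)
  have hcount : ∀ (Q : (κ' → ℤ) → Prop) [DecidablePred Q], ((kbox N L).filter fun n => Q (fun k => n (e k))).card =
      ((kbox (fun k => N (e k)) (fun k => L (e k))).filter Q).card * w := by
    intro Q _
    have h1 : ∀ n ∈ (kbox N L).filter (fun n => Q (fun k => n (e k))), (fun k => n (e k)) ∈
        (kbox (fun k => N (e k)) (fun k => L (e k))).filter Q := by
      intro n hn
      rw [mem_filter] at hn ⊢
      exact ⟨hmaps n hn.1, hn.2⟩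
    rw [card_eq_sum_card_fiberwise h1, sum_congr rfl (g := fun _ => w), sum_const, smul_eq_mul]
    intro n' hn'
    rw [mem_filter] at hn'
    rw [← hfib n' hn'.1]
    congr 1
    ext n
    rw [mem_filter, mem_filter, mem_filter]
    constructor
    · rintro ⟨⟨h2, _⟩, h3⟩
      exact ⟨h2, h3⟩
    · rintro ⟨h2, h3⟩
      refine ⟨⟨h2, ?_⟩, h3⟩
      rw [h3]
      exact hn'.2
  have h2 := hcount (fun _ => True)
  simp only [filter_true] at h2
  rw [kbox_card, kbox_card] at h2
  rw [hcount P, h2]
  ring

end

end Q282.PX
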