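import Pool.Agent.Q282.PX.Loc

/-!
# The L-functions of the products of hyperelliptic curves over a number field
-/

set_option autoImplicit false
set_option linter.unusedSectionVars false

namespace Q282.PX

open Finset NumberField IsDedekindDomain Polynomial
open Q282.JK
open Pool.Agent.H341R2.Sharp (T)

section

variable {K : Type} [Field K] [NumberField K] {n : ℕ}

/-- The types `(c_1, ..., c_n)`, `c_j = 0, 1, 2`, of the summands `H^(c_1)(C_1) ⊗ ... ⊗ H^(c_n)(C_n)` of the cohomology group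
`H^i(C_1 × ... × C_n)` in the formula of Künneth: `c_1 + ... + c_n = i`. -/
def types (n i : ℕ) : Finset (Fin n → Fin 3) := univ.filter fun c => ∑ j, (c j : ℕ) = i

/-- The trace of the `k`-th power of the Frobenius at `v` on `H^i(C_1 × ... × C_n)`, where `C_j` is the curve `y ^ 2 = f_j(x)`
together with one point at infinity: the sum over the types of the products of the traces on the `H^(c_j)(C_j)`, which are `1` for
`c_j = 0`, `q ^ k + 1 - #C_j(F_k)` for `c_j = 1` and `q ^ k` for `c_j = 2`. Here `q = N v`, `F_k` is the field with `q ^ k`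
elements and `#C_j(F_k) = points (f j) v k + 1`. -/
noncomputable def traceP (f : Fin n → (𝓞 K)[X]) (v : HeightOneSpectrum (𝓞 K)) (i k : ℕ) : ℝ :=
  ∑ c ∈ types n i, ∏ j, (if c j = 0 then 1 else if c j = 1 then
    (Ideal.absNorm v.asIdeal : ℝ) ^ k - points (f j) v k else (Ideal.absNorm v.asIdeal : ℝ) ^ k)

/-- `v` does not divide two, and no `f_j` has a multiple root modulo `v`. -/
def GoodP (f : Fin n → (𝓞 K)[X]) (v : HeightOneSpectrum (𝓞 K)) : Prop :=
  (2 : 𝓞 K) ∉ v.asIdeal ∧ ∀ j, Squarefree ((f j).map (red v))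

/-- The reciprocal of the Euler factor at `v` of `L(H^(2m-1)(C_1 × ... × C_n), s)` at the centre `s = m`: the value at
`T = q ^ (-m)` of `det (1 - Frob_v T) = exp (- ∑_{k ≥ 1} trace (Frob_v ^ k) T ^ k / k)`. -/
noncomputable def factorP (f : Fin n → (𝓞 K)[X]) (m : ℕ) (v : HeightOneSpectrum (𝓞 K)) : ℝ :=
  Real.exp (-∑' k : ℕ, traceP f v (2 * m - 1) (k + 1) / ((k + 1) * (Ideal.absNorm v.asIdeal : ℝ) ^ (m * (k + 1))))

/-- The product of the values `factorP f m v` over the primes `v` of `K` with `GoodP f v` and `N v ≤ X`. -/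
noncomputable def productP (f : Fin n → (𝓞 K)[X]) (m X : ℕ) : ℝ :=
  ∏ᶠ v ∈ {v : HeightOneSpectrum (𝓞 K) | GoodP f v ∧ Ideal.absNorm v.asIdeal ≤ X}, factorP f m v

open Classical in
/-- the logarithm of the factor -/
noncomputable def valP (f : Fin n → (𝓞 K)[X]) (m : ℕ) (v : HeightOneSpectrum (𝓞 K)) : ℝ :=
  if GoodP f v then -∑' k : ℕ, traceP f v (2 * m - 1) (k + 1) / ((k + 1) * (Ideal.absNorm v.asIdeal : ℝ) ^ (m * (k + 1))) else 0

/-- the logarithm of the product -/
theorem log_productP (f : Fin n → (𝓞 K)[X]) (m X : ℕ) :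
    0 < productP f m X ∧ Real.log (productP f m X) = ∑ v ∈ Q282.GK.SX K X, valP f m v := by
  classical
  have h1 : productP f m X = ∏ v ∈ (Q282.GK.SX K X).filter (GoodP f), factorP f m v := by
    unfold productP
    refine finprod_mem_eq_prod_of_inter_mulSupport_eq _ ?_
    congr 1
    ext v
    rw [Set.mem_ofPred_eq, mem_coe, mem_filter, Q282.GK.mem_SX]
    exact and_comm
  have hpos : ∀ v ∈ (Q282.GK.SX K X).filter (GoodP f), 0 < factorP f m v := fun v _ => Real.exp_pos _
  refine ⟨by rw [h1]; exact prod_pos hpos, ?_⟩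
  rw [h1, Real.log_prod (fun v hv => (hpos v hv).ne'), sum_filter]
  refine sum_congr rfl fun v _ => ?_
  unfold valP
  split_ifs with h
  · unfold factorP
    rw [Real.log_exp]
  · rfl

/-- the number of twos -/
def twos (c : Fin n → Fin 3) : Finset (Fin n) := univ.filter fun j => c j = 2

lemma sum_types (c : Fin n → Fin 3) : ∑ j, (c j : ℕ) = (ones c).card + 2 * (twos c).card := by
  unfold ones twos
  rw [card_filter, card_filter, mul_sum, ← sum_add_distrib]
  refine sum_congr rfl fun j _ => ?_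
  have h3 : ∀ x : Fin 3, (x : ℕ) = (if x = 1 then 1 else 0) + 2 * (if x = 2 then 1 else 0) := by decide
  exact h3 (c j)

lemma prod_types (c : Fin n → Fin 3) (h : Fin n → ℝ) (Q : ℝ) :
    ∏ j, (if c j = 0 then 1 else if c j = 1 then h j else Q) = (∏ j ∈ ones c, h j) * Q ^ (twos c).card := by
  have h1 : ∏ j ∈ ones c, h j = ∏ j, if c j = 1 then h j else 1 := by
    unfold ones
    rw [prod_filter]
  have h2 : Q ^ (twos c).card = ∏ j, if c j = 2 then Q else 1 := by
    unfold twos
    rw [← prod_filter, prod_const]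
  rw [h1, h2, ← prod_mul_distrib]
  refine prod_congr rfl fun j _ => ?_
  have h3 : ∀ x : Fin 3, ∀ a b : ℝ, (if x = 0 then 1 else if x = 1 then a else b) = (if x = 1 then a else 1) * (if x = 2 then b else 1) := by
    intro x a b
    fin_cases x <;> simp
  exact h3 (c j) (h j) Q

lemma types_odd {m : ℕ} (hm : 1 ≤ m) {c : Fin n → Fin 3} (hc : c ∈ types n (2 * m - 1)) :
    (ones c).card + 2 * (twos c).card = 2 * m - 1 ∧ Odd (ones c).card := by
  unfold types at hc
  rw [mem_filter, sum_types] at hc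
  refine ⟨hc.2, ?_⟩
  have h1 := hc.2
  rw [Nat.odd_iff]
  omega

lemma types_ne {m : ℕ} (hm : 1 ≤ m) {c : Fin n → Fin 3} (hc : c ∈ types n (2 * m - 1)) : (ones c).Nonempty := by
  obtain ⟨-, h⟩ := types_odd hm hc
  rw [nonempty_iff_ne_empty]
  intro h0
  rw [h0, card_empty] at h
  exact absurd h (by decide)

/-- the traces -/
lemma trace_zk (f : Fin n → (𝓞 K)[X]) (v : HeightOneSpectrum (𝓞 K)) [Fintype (Res v)] [DecidableEq (Res v)] (h2 : (2 : Res v) ≠ 0)
    (m : ℕ) (hm : 1 ≤ m) (k : ℕ) (hk : 1 ≤ k) :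
    -(traceP f v (2 * m - 1) k / (Ideal.absNorm v.asIdeal : ℝ) ^ (m * k)) =
      zk (types n (2 * m - 1)) (fun j => (f j).map (red v)) k / (Real.sqrt (Fintype.card (Res v))) ^ k := by
  unfold traceP zk
  rw [sum_div, sum_div, ← sum_neg_distrib]
  refine sum_congr rfl fun c hc => ?_
  obtain ⟨h1, hodd⟩ := types_odd hm hc
  have hpt : ∀ j, (Ideal.absNorm v.asIdeal : ℝ) ^ k - points (f j) v k = -(T ((f j).map (red v)) k : ℝ) := by
    intro j
    have h3 := pts_eq (res_ring v h2) ((f j).map (red v)) k hk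
    unfold points
    rw [res_card v] at h3
    rw [← h3]
    ring
  rw [prod_types, prod_congr rfl (fun j _ => hpt j), prod_neg, hodd.neg_one_pow, ← res_card v]
  obtain ⟨s, hs⟩ : ∃ s : ℝ, s = Real.sqrt (Fintype.card (Res v)) := ⟨_, rfl⟩
  have hq0 : (0 : ℝ) < Fintype.card (Res v) := by exact_mod_cast Fintype.card_pos
  have hs0 : 0 < s := by
    rw [hs]
    exact Real.sqrt_pos.2 hq0
  have hsq : (Fintype.card (Res v) : ℝ) = s ^ 2 := by
    rw [hs, Real.sq_sqrt hq0.le]
  rw [hsq, Real.sqrt_sq hs0.le, prod_div_distrib, prod_const]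
  obtain ⟨P, hP⟩ : ∃ P : ℝ, P = ∏ j ∈ ones c, (T ((f j).map (red v)) k : ℝ) := ⟨_, rfl⟩
  rw [← hP]
  have e1 : (s ^ 2) ^ (m * k) = (s ^ k) ^ (2 * m) := by
    rw [← pow_mul, ← pow_mul]
    congr 1
    ring
  have e2 : ((s ^ 2) ^ k) ^ (twos c).card = (s ^ k) ^ (2 * (twos c).card) := by
    rw [← pow_mul, ← pow_mul, ← pow_mul]
    congr 1
    ring
  have e3 : 2 * m = (ones c).card + 2 * (twos c).card + 1 := by omega
  rw [e1, e2, e3, pow_add, pow_add, pow_one]
  have hsk : 0 < s ^ k := by positivity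
  field_simp

/-- the values -/
lemma valP_eq (f : Fin n → (𝓞 K)[X]) (v : HeightOneSpectrum (𝓞 K)) [Fintype (Res v)] [DecidableEq (Res v)] (h2 : (2 : Res v) ≠ 0)
    (m : ℕ) (hm : 1 ≤ m) :
    -∑' k : ℕ, traceP f v (2 * m - 1) (k + 1) / ((k + 1) * (Ideal.absNorm v.asIdeal : ℝ) ^ (m * (k + 1))) =
      lval (types n (2 * m - 1)) (fun j => (f j).map (red v)) := by
  unfold lval
  rw [← tsum_neg]
  refine tsum_congr fun k => ?_
  have h1 := trace_zk f v h2 m hm (k + 1) (by omega)
  have hk : (0 : ℝ) < (k : ℝ) + 1 := by positivity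
  rw [mul_comm ((k : ℝ) + 1), ← div_div, mul_comm ((k : ℝ) + 1), ← div_div, ← h1]
  ring

variable {g r : Fin n → ℕ}

/-- the local data -/
theorem loc_P (K : Type) [Field K] [NumberField K] (n m : ℕ) (hm : 1 ≤ m) (g r : Fin n → ℕ) (hg : ∀ j, 1 ≤ g j)
    (hr : ∀ j, r j ≤ g j) : ∃ B : ℝ, 0 < B ∧
    Q282.GK.Local K (Ix g r) 3 (kap (types n (2 * m - 1)) (fun j => (r j : ℝ)) + (types n (2 * m - 1)).card / 2) B B
      (fun v t => valP (fj t) m v) ∧
    (0 < sig (types n (2 * m - 1)) → Q282.MN.Loc2 K (Ix g r) 3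
      ((kap (types n (2 * m - 1)) (fun j => (r j : ℝ)) + (types n (2 * m - 1)).card / 2) / Real.sqrt (sig (types n (2 * m - 1)))) B
      (fun v t => valP (fj t) m v / Real.sqrt (sig (types n (2 * m - 1))))) := by
  classical
  obtain ⟨B, hB0, hB⟩ := locP_all n (types n (2 * m - 1)) (fun c hc => types_ne hm hc) g r hg hr
  have hval : ∀ (v : HeightOneSpectrum (𝓞 K)) (t : Ix g r → 𝓞 K),
      valP (fj t) m v = @locP (Res v) _ (Fintype.ofFinite _) (Classical.decEq _) n g r (types n (2 * m - 1)) (fun i => red v (t i)) := by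
    intro v t
    let _ : Fintype (Res v) := Fintype.ofFinite _
    unfold valP locP GoodP
    have h1 : ∀ j, (fj t j).map (red v) = fj (fun i => red v (t i)) j := fun j => fpol_map (red v) _
    rw [two_iff]
    by_cases hg2 : (2 : Res v) ≠ 0 ∧ ∀ j, Squarefree ((fj t j).map (red v))
    · rw [if_pos hg2, if_pos ⟨hg2.1, fun j => by rw [← h1]; exact hg2.2 j⟩, valP_eq (fj t) v hg2.1 m hm]
      congr 1
      funext j
      exact h1 j
    · rw [if_neg hg2, if_neg]
      rintro ⟨h3, h4⟩
      exact hg2 ⟨h3, fun j => by rw [h1]; exact h4 j⟩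
  refine ⟨B + 1, by positivity, fun v => ?_, fun hσ v => ?_⟩
  · let _ : Fintype (Res v) := Fintype.ofFinite _
    obtain ⟨h1, h2⟩ := hB (Res v)
    refine ⟨Res v, inferInstance, inferInstance, red v, fun u => locP (types n (2 * m - 1)) u, red_surj v, res_char v, res_card v,
      fun t => hval v t, ?_, ?_⟩
    · intro u
      exact (h1 u).trans (div_le_div_of_nonneg_right (by linarith) (Real.sqrt_nonneg _))
    · intro h3
      have h4 := (h2 (ring_two v h3)).1
      unfold Q282.CL.av at h4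
      have hcard : (Fintype.card (Ix g r → Res v) : ℝ) = (Fintype.card (Res v) : ℝ) ^ Fintype.card (Ix g r) := by
        rw [Fintype.card_fun]
        push_cast
        rfl
      rw [hcard] at h4
      exact h4.trans (div_le_div_of_nonneg_right (by linarith) (by positivity))
  · let _ : Fintype (Res v) := Fintype.ofFinite _
    obtain ⟨h1, h2⟩ := hB (Res v)
    obtain ⟨σ, hσ'⟩ : ∃ σ : ℝ, σ = Real.sqrt (sig (types n (2 * m - 1))) := ⟨_, rfl⟩
    have hσ1 : 1 ≤ σ := by
      rw [hσ']
      refine Real.one_le_sqrt.2 ?_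
      exact_mod_cast hσ
    have hσ2 : σ ^ 2 = sig (types n (2 * m - 1)) := by
      rw [hσ', Real.sq_sqrt (Nat.cast_nonneg _)]
    rw [← hσ']
    have hσ0 : 0 < σ := by linarith
    refine ⟨Res v, inferInstance, inferInstance, red v, fun u => locP (types n (2 * m - 1)) u / σ, red_surj v, Ideal.mk_ker, res_char v,
      res_card v, fun t => by
        show valP (fj t) m v / σ = locP (types n (2 * m - 1)) (fun i => red v (t i)) / σ
        rw [hval v t], ?_, ?_⟩
    · intro u
      rw [abs_div, abs_of_pos hσ0]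
      have h3 := h1 u
      have h4 : |locP (types n (2 * m - 1)) u| / σ ≤ |locP (types n (2 * m - 1)) u| := div_le_self (abs_nonneg _) hσ1
      exact h4.trans (h3.trans (div_le_div_of_nonneg_right (by linarith) (Real.sqrt_nonneg _)))
    · intro h3
      obtain ⟨h4, h5⟩ := h2 (ring_two v h3)
      have hq0 : (0 : ℝ) < Fintype.card (Res v) := by exact_mod_cast Fintype.card_pos
      have hq32 : (0 : ℝ) < (Fintype.card (Res v) : ℝ) ^ (3 / 2 : ℝ) := by positivity
      have hle : B / (Fintype.card (Res v) : ℝ) ^ (3 / 2 : ℝ) ≤ (B + 1) / (Fintype.card (Res v) : ℝ) ^ (3 / 2 : ℝ) :=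
        div_le_div_of_nonneg_right (by linarith) hq32.le
      have hle0 : 0 ≤ (B + 1) / (Fintype.card (Res v) : ℝ) ^ (3 / 2 : ℝ) := by positivity
      constructor
      · have e1 : (fun u : Ix g r → Res v => locP (types n (2 * m - 1)) u / σ) = fun u => (1 / σ) * locP (types n (2 * m - 1)) u := by
          funext u
          ring
        rw [e1, Q282.CL.av_mul]
        have e2 : ∀ a b : ℝ, 1 / σ * a - b / σ / (Fintype.card (Res v) : ℝ) = (1 / σ) * (a - b / (Fintype.card (Res v) : ℝ)) := by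
          intro a b
          field_simp
        rw [e2, abs_mul, abs_of_pos (by positivity : 0 < 1 / σ)]
        have e3 : 1 / σ ≤ 1 := by
          rw [div_le_one hσ0]
          exact hσ1
        calc _ ≤ 1 * ((B + 1) / (Fintype.card (Res v) : ℝ) ^ (3 / 2 : ℝ)) :=
              mul_le_mul e3 (h4.trans hle) (abs_nonneg _) zero_le_one
          _ = _ := one_mul _
      · have e1 : (fun u : Ix g r → Res v => (locP (types n (2 * m - 1)) u / σ) ^ 2) = fun u => (1 / σ ^ 2) * locP (types n (2 * m - 1)) u ^ 2 := by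
          funext u
          rw [div_pow]
          ring
        rw [e1, Q282.CL.av_mul]
        have e2 : ∀ a : ℝ, 1 / σ ^ 2 * a - 1 / (Fintype.card (Res v) : ℝ) = (1 / σ ^ 2) * (a - σ ^ 2 / (Fintype.card (Res v) : ℝ)) := by
          intro a
          field_simp
        rw [e2, abs_mul, abs_of_pos (by positivity : 0 < 1 / σ ^ 2), hσ2]
        have e3 : 1 / (sig (types n (2 * m - 1)) : ℝ) ≤ 1 := by
          rw [← hσ2, div_le_one (by positivity)]
          exact one_le_pow₀ hσ1
        calc _ ≤ 1 * ((B + 1) / (Fintype.card (Res v) : ℝ) ^ (3 / 2 : ℝ)) :=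
              mul_le_mul e3 (h5.trans hle) (abs_nonneg _) zero_le_one
          _ = _ := one_mul _

end

end Q282.PX
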