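import Pool.Agent.Q282.PX.Abs
import Pool.Agent.Q282.JB.Sq

/-!
# The local factors of the products of hyperelliptic curves over a finite field
-/

set_option autoImplicit false
set_option linter.unusedSectionVars false

namespace Q282.PX

open Polynomial Finset
open Q282.JK Q282.CL
open Pool.Agent.H341R2.Sharp

section

variable {F : Type} [Field F] [Fintype F] [DecidableEq F] {n : ℕ}

/-- the normalised traces -/
noncomputable def zk (𝒞 : Finset (Fin n → Fin 3)) (f : Fin n → F[X]) (k : ℕ) : ℝ :=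
  ∑ c ∈ 𝒞, ∏ j ∈ ones c, (T (f j) k : ℝ) / (Real.sqrt (Fintype.card F)) ^ k

/-- the logarithm of the factor -/
noncomputable def lval (𝒞 : Finset (Fin n → Fin 3)) (f : Fin n → F[X]) : ℝ :=
  ∑' k : ℕ, zk 𝒞 f (k + 1) / ((k + 1) * (Real.sqrt (Fintype.card F)) ^ (k + 1))

lemma zk_le (𝒞 : Finset (Fin n → Fin 3)) (f : Fin n → F[X]) (a : ℝ) (ha : 1 ≤ a)
    (hT : ∀ j k, 1 ≤ k → |(T (f j) k : ℝ)| ≤ a * (Real.sqrt (Fintype.card F)) ^ k) (k : ℕ) (hk : 1 ≤ k) :
    |zk 𝒞 f k| ≤ 𝒞.card * a ^ n := by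
  have hq : (0 : ℝ) < Fintype.card F := by exact_mod_cast Fintype.card_pos
  have hs : 0 < Real.sqrt (Fintype.card F) := Real.sqrt_pos.2 hq
  unfold zk
  refine (abs_sum_le_sum_abs _ _).trans ?_
  have h1 : ∀ c ∈ 𝒞, |∏ j ∈ ones c, (T (f j) k : ℝ) / (Real.sqrt (Fintype.card F)) ^ k| ≤ a ^ n := by
    intro c _
    rw [abs_prod]
    refine (prod_le_prod (fun j _ => abs_nonneg _) (g := fun _ => a) fun j _ => ?_).trans ?_
    · rw [abs_div, abs_of_pos (by positivity : 0 < (Real.sqrt (Fintype.card F)) ^ k), div_le_iff₀ (by positivity)]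
      exact hT j k hk
    · rw [prod_const]
      refine pow_le_pow_right₀ ha ?_
      have := card_le_univ (ones c)
      rwa [Fintype.card_fin] at this
  refine (sum_le_sum h1).trans (le_of_eq ?_)
  rw [sum_const, nsmul_eq_mul]

/-- the expansion of the logarithm -/
theorem lval_expand (hF : ringChar F ≠ 2) (𝒞 : Finset (Fin n → Fin 3)) (f : Fin n → F[X]) (a : ℝ) (ha : 1 ≤ a)
    (hT : ∀ j k, 1 ≤ k → |(T (f j) k : ℝ)| ≤ a * (Real.sqrt (Fintype.card F)) ^ k) :
    |lval 𝒞 f - (zk 𝒞 f 1 / Real.sqrt (Fintype.card F) + zk 𝒞 f 2 / (2 * Real.sqrt (Fintype.card F) ^ 2))| ≤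
      (𝒞.card * a ^ n) / Real.sqrt (Fintype.card F) ^ 3 := by
  obtain ⟨s, hs⟩ : ∃ s : ℝ, s = Real.sqrt (Fintype.card F) := ⟨_, rfl⟩
  obtain ⟨M, hM⟩ : ∃ M : ℝ, M = 𝒞.card * a ^ n := ⟨_, rfl⟩
  have hM0 : 0 ≤ M := by rw [hM]; positivity
  have hs32 : 3 / 2 ≤ s := by
    rw [hs]
    refine Real.le_sqrt_of_sq_le ?_
    have := card_ge hF
    norm_num
    linarith
  have hs0 : 0 < s := by linarith
  have hz := zk_le 𝒞 f a ha hT
  unfold lval
  rw [← hM] at hz ⊢
  rw [← hs]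
  have hterm : ∀ k : ℕ, ‖zk 𝒞 f (k + 1) / ((k + 1) * s ^ (k + 1))‖ ≤ M / s * (1 / s) ^ k := by
    intro k
    rw [Real.norm_eq_abs, abs_div, abs_of_pos (by positivity : 0 < ((k : ℝ) + 1) * s ^ (k + 1))]
    have h1 : M / s * (1 / s) ^ k = M / s ^ (k + 1) := by
      rw [one_div, inv_pow, pow_succ]
      field_simp
    rw [h1]
    refine div_le_div₀ hM0 (hz (k + 1) (by omega)) (by positivity) ?_
    have h2 : (1 : ℝ) ≤ (k : ℝ) + 1 := by
      have : (0 : ℝ) ≤ k := Nat.cast_nonneg k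
      linarith
    have h3 : 0 < s ^ (k + 1) := by positivity
    nlinarith
  have hgeo : Summable fun k : ℕ => M / s * (1 / s) ^ k :=
    (summable_geometric_of_lt_one (by positivity) (by rw [div_lt_one hs0]; linarith)).mul_left _
  have hsum : Summable fun k : ℕ => zk 𝒞 f (k + 1) / ((k + 1) * s ^ (k + 1)) := Summable.of_norm_bounded hgeo hterm
  rw [← hsum.sum_add_tsum_nat_add 2, sum_range_succ, sum_range_one]
  have h0 : zk 𝒞 f (0 + 1) / (((0 : ℕ) : ℝ) + 1) / s ^ (0 + 1) = zk 𝒞 f 1 / s := by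
    norm_num
  have e0 : zk 𝒞 f (0 + 1) / ((((0 : ℕ) : ℝ) + 1) * s ^ (0 + 1)) = zk 𝒞 f 1 / s := by
    norm_num
  have e1 : zk 𝒞 f (1 + 1) / ((((1 : ℕ) : ℝ) + 1) * s ^ (1 + 1)) = zk 𝒞 f 2 / (2 * s ^ 2) := by
    norm_num
  rw [e0, e1, add_sub_cancel_left]
  have hb : HasSum (fun k : ℕ => M / (3 * s ^ 3) * (1 / s) ^ k) (M / (3 * s ^ 3) * (1 - 1 / s)⁻¹) :=
    (hasSum_geometric_of_lt_one (by positivity) (by rw [div_lt_one hs0]; linarith)).mul_left _
  have h4 : ‖∑' k : ℕ, zk 𝒞 f (k + 2 + 1) / ((((k + 2 : ℕ) : ℝ) + 1) * s ^ (k + 2 + 1))‖ ≤ M / (3 * s ^ 3) * (1 - 1 / s)⁻¹ := by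
    refine tsum_of_norm_bounded hb fun k => ?_
    rw [Real.norm_eq_abs, abs_div, abs_of_pos (by positivity : 0 < (((k + 2 : ℕ) : ℝ) + 1) * s ^ (k + 2 + 1))]
    have h1 : M / (3 * s ^ 3) * (1 / s) ^ k = M / (3 * s ^ (k + 2 + 1)) := by
      rw [one_div, inv_pow, show k + 2 + 1 = 3 + k by ring, pow_add]
      field_simp
    rw [h1]
    refine div_le_div₀ hM0 (hz (k + 2 + 1) (by omega)) (by positivity) ?_
    have h2 : (3 : ℝ) ≤ ((k + 2 : ℕ) : ℝ) + 1 := by
      push_cast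
      have : (0 : ℝ) ≤ k := Nat.cast_nonneg k
      linarith
    have h3 : 0 < s ^ (k + 2 + 1) := by positivity
    nlinarith
  rw [Real.norm_eq_abs] at h4
  refine h4.trans ?_
  have h5 : (1 - 1 / s)⁻¹ ≤ 3 := by
    rw [inv_le_comm₀ (by
      rw [sub_pos, div_lt_one hs0]
      linarith) (by norm_num)]
    have : 1 / s ≤ 2 / 3 := by
      rw [div_le_div_iff₀ hs0 (by norm_num)]
      linarith
    linarith
  have h6 : M / (3 * s ^ 3) * 3 = M / s ^ 3 := by
    field_simp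
  rw [← h6]
  exact mul_le_mul_of_nonneg_left h5 (by positivity)

variable {g r : Fin n → ℕ}

/-- the index set of the parameters of the curves -/
abbrev Ix (g r : Fin n → ℕ) : Type := Σ j : Fin n, Idx (r j) (2 * g j + 1 - r j)

/-- the polynomials -/
noncomputable def fj {R : Type} [CommRing R] (u : Ix g r → R) (j : Fin n) : R[X] := fpol fun i => u ⟨j, i⟩

open Classical in
/-- the local value -/
noncomputable def locP (𝒞 : Finset (Fin n → Fin 3)) (u : Ix g r → F) : ℝ :=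
  if (2 : F) ≠ 0 ∧ ∀ j, Squarefree (fj u j) then lval 𝒞 (fj u) else 0

end

open Classical in
/-- the bounds, the means and the second moments of the local values -/
theorem locP_all (n : ℕ) (𝒞 : Finset (Fin n → Fin 3)) (hne : ∀ c ∈ 𝒞, (ones c).Nonempty) (g r : Fin n → ℕ) (hg : ∀ j, 1 ≤ g j)
    (hr : ∀ j, r j ≤ g j) : ∃ B : ℝ, 0 ≤ B ∧ ∀ (F : Type) [Field F] [Fintype F] [DecidableEq F],
    (∀ u : Ix g r → F, |locP 𝒞 u| ≤ B / Real.sqrt (Fintype.card F)) ∧
    (ringChar F ≠ 2 →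
      |av (fun u : Ix g r → F => locP 𝒞 u) - (kap 𝒞 (fun j => (r j : ℝ)) + 𝒞.card / 2) / Fintype.card F| ≤
        B / (Fintype.card F : ℝ) ^ (3 / 2 : ℝ) ∧
      |av (fun u : Ix g r → F => locP 𝒞 u ^ 2) - sig 𝒞 / Fintype.card F| ≤ B / (Fintype.card F : ℝ) ^ (3 / 2 : ℝ)) := by
  obtain ⟨D, hD⟩ : ∃ D : ℝ, D = 1 + ∑ j, ((5 * (2 * g j + 1) : ℝ) + (r j : ℝ) * (r j ^ 2 + r j) + ((r j + (2 * g j + 1 - r j) : ℕ) + (r j : ℝ) ^ 2) +
      (r j ^ 2 + r j + g j)) := ⟨_, rfl⟩
  have hterm : ∀ j, 0 ≤ ((5 * (2 * g j + 1) : ℝ) + (r j : ℝ) * (r j ^ 2 + r j) + ((r j + (2 * g j + 1 - r j) : ℕ) + (r j : ℝ) ^ 2) +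
      (r j ^ 2 + r j + g j)) := fun j => by positivity
  have hDj : ∀ j, 1 + ((5 * (2 * g j + 1) : ℝ) + (r j : ℝ) * (r j ^ 2 + r j) + ((r j + (2 * g j + 1 - r j) : ℕ) + (r j : ℝ) ^ 2) +
      (r j ^ 2 + r j + g j)) ≤ D := by
    intro j
    rw [hD]
    have := single_le_sum (f := fun j => ((5 * (2 * g j + 1) : ℝ) + (r j : ℝ) * (r j ^ 2 + r j) +
      ((r j + (2 * g j + 1 - r j) : ℕ) + (r j : ℝ) ^ 2) + (r j ^ 2 + r j + g j))) (fun j _ => hterm j) (mem_univ j)
    linarith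
  have hpos : ∀ j, 0 ≤ (r j : ℝ) * (r j ^ 2 + r j) ∧ 0 ≤ (((r j + (2 * g j + 1 - r j) : ℕ) : ℝ) + (r j : ℝ) ^ 2) ∧
      0 ≤ ((r j : ℝ) ^ 2 + r j + g j) ∧ (0 : ℝ) ≤ 5 * (2 * g j + 1) := fun j => ⟨by positivity, by positivity, by positivity, by positivity⟩
  have hD1 : 1 ≤ D := by
    rw [hD]
    have := sum_nonneg fun j (_ : j ∈ (univ : Finset (Fin n))) => hterm j
    linarith
  have hrD : ∀ j, (0 : ℝ) ≤ r j ∧ (r j : ℝ) ≤ D := by
    intro j
    refine ⟨Nat.cast_nonneg _, ?_⟩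
    have h1 := hDj j
    have h2 := hpos j
    have h3 : (r j : ℝ) ≤ r j ^ 2 + r j + g j := by
      have : (0 : ℝ) ≤ (r j : ℝ) ^ 2 := by positivity
      have : (0 : ℝ) ≤ g j := Nat.cast_nonneg _
      linarith
    linarith [h2.1, h2.2.1, h2.2.2.2]
  obtain ⟨B, hB0, hB⟩ := main_abs n 𝒞 hne (fun j => (r j : ℝ)) D (𝒞.card * D ^ n) hD1 (by positivity) hrD
  refine ⟨B, hB0, fun F _ _ _ => ?_⟩
  by_cases hF : ringChar F = 2
  · refine ⟨fun u => ?_, fun h => absurd hF h⟩
    unfold locP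
    have h2 : (2 : F) = 0 := by
      have := CharP.cast_eq_zero F (ringChar F)
      rw [hF] at this
      exact_mod_cast this
    rw [if_neg (fun h => h.1 h2), abs_zero]
    positivity
  · obtain ⟨q, hq⟩ : ∃ q : ℝ, q = Fintype.card F := ⟨_, rfl⟩
    have hq1 : (1 : ℝ) ≤ q := by rw [hq]; exact_mod_cast Fintype.card_pos
    have hq0 : 0 < q := by linarith
    obtain ⟨s, hs⟩ : ∃ s : ℝ, s = Real.sqrt q := ⟨_, rfl⟩
    have hs1 : 1 ≤ s := by rw [hs]; exact Real.one_le_sqrt.2 hq1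
    have hs0 : 0 < s := by linarith
    have hsq : s ^ 2 = q := by rw [hs, Real.sq_sqrt hq0.le]
    have hmon : ∀ (j : Fin n) (u : Idx (r j) (2 * g j + 1 - r j) → F), (fpol u).Monic := fun j u => fpol_monic (by have := hr j; omega) u
    have hdeg : ∀ (j : Fin n) (u : Idx (r j) (2 * g j + 1 - r j) → F), (fpol u).natDegree = 2 * g j + 1 := fun j u => by
      have := hr j
      rw [fpol_natDegree (by omega)]
      omega
    have hT : ∀ (j : Fin n) (u : Idx (r j) (2 * g j + 1 - r j) → F) (k : ℕ), 1 ≤ k → |(T (fpol u) k : ℝ)| ≤ D * s ^ k := by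
      intro j u k hk
      have h4 := (T_bound hF (hmon j u) (by rw [hdeg]; omega) (odd_ns (hmon j u) (hdeg j u)) k hk).1
      rw [hdeg, ← hq, ← hs] at h4
      refine h4.trans ?_
      have h5 := hDj j
      obtain ⟨p1, p2, p3, p4⟩ := hpos j
      have h6 : ((5 * (2 * g j + 1 : ℕ) : ℝ)) * s ^ k ≤ D * s ^ k := by
        refine mul_le_mul_of_nonneg_right ?_ (by positivity)
        push_cast
        linarith
      refine le_trans (le_of_eq ?_) h6
      ring
    have hcardQ : ∀ j, (Fintype.card (Idx (r j) (2 * g j + 1 - r j) → F) : ℝ) = q ^ Fintype.card (Idx (r j) (2 * g j + 1 - r j)) := by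
      intro j
      rw [Fintype.card_fun, hq]
      push_cast
      rfl
    obtain ⟨G, hG⟩ : ∃ G : (∀ j : Fin n, Idx (r j) (2 * g j + 1 - r j) → F) → ℝ, G = fun ω => locP (g := g) (r := r) 𝒞 (fun k => ω k.1 k.2) := ⟨_, rfl⟩
    have hfj : ∀ ω : (∀ j : Fin n, Idx (r j) (2 * g j + 1 - r j) → F), fj (g := g) (r := r) (fun k => ω k.1 k.2) = fun j => fpol (ω j) := fun ω => rfl
    have key := hB (fun j => Idx (r j) (2 * g j + 1 - r j) → F) s hs1 (fun j u => (T (fpol u) 1 : ℝ) / s) (fun j u => (T (fpol u) 2 : ℝ) / s ^ 2)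
      (fun j u => ¬ Squarefree (fpol u)) G ?_ ?_ ?_ ?_ ?_ ?_ ?_ ?_
    · obtain ⟨k1, k2, k3⟩ := key
      rw [← hq, Q282.JB.rpow_q hq0.le, ← hs]
      have e : ∀ φ : (Ix g r → F) → ℝ, av φ = av (fun ω : (∀ j : Fin n, Idx (r j) (2 * g j + 1 - r j) → F) => φ (fun k => ω k.1 k.2)) := by
        intro φ
        have h1 := av_equiv (Equiv.piCurry (fun (j : Fin n) (_ : Idx (r j) (2 * g j + 1 - r j)) => F)).symm φ
        rw [h1]
        rfl
      refine ⟨fun u => ?_, fun _ => ⟨?_, ?_⟩⟩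
      · have h1 := k1 (fun j i => u ⟨j, i⟩)
        rw [hG] at h1
        exact h1
      · rw [e]
        rw [hG, hsq] at k2
        exact k2
      · rw [e]
        rw [hG, hsq] at k3
        exact k3
    · intro j u
      have h1 := hT j u 1 le_rfl
      rw [pow_one] at h1
      show |(T (fpol u) 1 : ℝ) / s| ≤ D
      rw [abs_div, abs_of_pos hs0, div_le_iff₀ hs0]
      exact h1
    · intro j u
      have h1 := hT j u 2 (by norm_num)
      show |(T (fpol u) 2 : ℝ) / s ^ 2| ≤ D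
      rw [abs_div, abs_of_pos (by positivity : 0 < s ^ 2), div_le_iff₀ (by positivity)]
      exact h1
    · intro j
      have hrj := hr j
      have hgj := hg j
      have h1 := mom_one (F := F) (r := r j) (m := 2 * g j + 1 - r j) hF (by omega)
      rw [← hq, ← hcardQ j] at h1
      have hc0 : (0 : ℝ) < Fintype.card (Idx (r j) (2 * g j + 1 - r j) → F) := by exact_mod_cast Fintype.card_pos
      have h2 : av (fun u : Idx (r j) (2 * g j + 1 - r j) → F => (T (fpol u) 1 : ℝ) / s) - r j / s =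
          (∑ u : Idx (r j) (2 * g j + 1 - r j) → F, (T (fpol u) 1 : ℝ) - r j * Fintype.card (Idx (r j) (2 * g j + 1 - r j) → F)) /
            (s * Fintype.card (Idx (r j) (2 * g j + 1 - r j) → F)) := by
        unfold av
        rw [← sum_div]
        field_simp
      show |av (fun u : Idx (r j) (2 * g j + 1 - r j) → F => (T (fpol u) 1 : ℝ) / s) - (r j : ℝ) / s| ≤ D / s ^ 2
      rw [h2, abs_div, abs_of_pos (by positivity : 0 < s * (Fintype.card (Idx (r j) (2 * g j + 1 - r j) → F) : ℝ)), div_le_iff₀ (by positivity)]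
      have h3 : |∑ u : Idx (r j) (2 * g j + 1 - r j) → F, (T (fpol u) 1 : ℝ) - r j * Fintype.card (Idx (r j) (2 * g j + 1 - r j) → F)| ≤
          r j * (r j ^ 2 + r j) * Fintype.card (Idx (r j) (2 * g j + 1 - r j) → F) / q := by
        rw [le_div_iff₀ hq0]
        exact h1
      refine h3.trans ?_
      have h4 : D / s ^ 2 * (s * (Fintype.card (Idx (r j) (2 * g j + 1 - r j) → F) : ℝ)) =
          (D * s) * Fintype.card (Idx (r j) (2 * g j + 1 - r j) → F) / q := by
        rw [hsq]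
        ring
      rw [h4]
      refine div_le_div_of_nonneg_right (mul_le_mul_of_nonneg_right ?_ hc0.le) hq0.le
      obtain ⟨p1, p2, p3, p4⟩ := hpos j
      have h5 := hDj j
      have h6 : D ≤ D * s := le_mul_of_one_le_right (by linarith) hs1
      linarith
    · intro j
      have hrj := hr j
      have hgj := hg j
      have h1 := Q282.FF.mom_sq (F := F) (r := r j) (m := 2 * g j + 1 - r j) hF (by omega) (by omega)
      rw [← hq, ← hcardQ j] at h1
      have hc0 : (0 : ℝ) < Fintype.card (Idx (r j) (2 * g j + 1 - r j) → F) := by exact_mod_cast Fintype.card_pos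
      have h2 : av (fun u : Idx (r j) (2 * g j + 1 - r j) → F => ((T (fpol u) 1 : ℝ) / s) ^ 2) - 1 =
          (∑ u : Idx (r j) (2 * g j + 1 - r j) → F, (T (fpol u) 1 : ℝ) ^ 2 - q * Fintype.card (Idx (r j) (2 * g j + 1 - r j) → F)) /
            (s ^ 2 * Fintype.card (Idx (r j) (2 * g j + 1 - r j) → F)) := by
        unfold av
        simp only [div_pow]
        rw [← sum_div, ← hsq]
        field_simp
      show |av (fun u : Idx (r j) (2 * g j + 1 - r j) → F => ((T (fpol u) 1 : ℝ) / s) ^ 2) - 1| ≤ D / s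
      rw [h2, abs_div, abs_of_pos (by positivity : 0 < s ^ 2 * (Fintype.card (Idx (r j) (2 * g j + 1 - r j) → F) : ℝ)), div_le_iff₀ (by positivity)]
      refine h1.trans ?_
      have h4 : D / s * (s ^ 2 * (Fintype.card (Idx (r j) (2 * g j + 1 - r j) → F) : ℝ)) =
          (D * s) * Fintype.card (Idx (r j) (2 * g j + 1 - r j) → F) := by
        field_simp
      rw [h4]
      refine mul_le_mul_of_nonneg_right ?_ hc0.le
      obtain ⟨p1, p2, p3, p4⟩ := hpos j
      have h5 := hDj j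
      have h6 : D ≤ D * s := le_mul_of_one_le_right (by linarith) hs1
      linarith
    · intro j
      have hrj := hr j
      have hgj := hg j
      have h1 := mom_two (F := F) (r := r j) (m := 2 * g j + 1 - r j) hF (by omega) (by omega)
      rw [← hq, ← hcardQ j] at h1
      have hc0 : (0 : ℝ) < Fintype.card (Idx (r j) (2 * g j + 1 - r j) → F) := by exact_mod_cast Fintype.card_pos
      have h2 : av (fun u : Idx (r j) (2 * g j + 1 - r j) → F => (T (fpol u) 2 : ℝ) / s ^ 2) - 1 =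
          (∑ u : Idx (r j) (2 * g j + 1 - r j) → F, (T (fpol u) 2 : ℝ) - q * Fintype.card (Idx (r j) (2 * g j + 1 - r j) → F)) /
            (s ^ 2 * Fintype.card (Idx (r j) (2 * g j + 1 - r j) → F)) := by
        unfold av
        rw [← sum_div, ← hsq]
        field_simp
      show |av (fun u : Idx (r j) (2 * g j + 1 - r j) → F => (T (fpol u) 2 : ℝ) / s ^ 2) - 1| ≤ D / s
      rw [h2, abs_div, abs_of_pos (by positivity : 0 < s ^ 2 * (Fintype.card (Idx (r j) (2 * g j + 1 - r j) → F) : ℝ)), div_le_iff₀ (by positivity)]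
      refine h1.trans ?_
      have h4 : D / s * (s ^ 2 * (Fintype.card (Idx (r j) (2 * g j + 1 - r j) → F) : ℝ)) =
          (D * s) * Fintype.card (Idx (r j) (2 * g j + 1 - r j) → F) := by
        field_simp
      rw [h4]
      refine mul_le_mul_of_nonneg_right ?_ hc0.le
      obtain ⟨p1, p2, p3, p4⟩ := hpos j
      have h5 := hDj j
      have h6 : D ≤ D * s := le_mul_of_one_le_right (by linarith) hs1
      have h7 : (0 : ℝ) ≤ (r j : ℝ) ^ 2 := by positivity
      linarith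
    · intro j
      have hrj := hr j
      have h1 := bad_card (F := F) (r := r j) (m := 2 * g j + 1 - r j) (g := g j) (by omega) hrj
      rw [← hq, ← hcardQ j] at h1
      have hc0 : (0 : ℝ) < Fintype.card (Idx (r j) (2 * g j + 1 - r j) → F) := by exact_mod_cast Fintype.card_pos
      unfold av
      rw [← sum_filter, sum_const, nsmul_eq_mul, mul_one, div_le_iff₀ hc0, div_mul_eq_mul_div, le_div_iff₀ (by positivity), hsq]
      refine le_trans ?_ (h1.trans ?_)
      · refine le_of_eq ?_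
        congr 2
      · refine mul_le_mul_of_nonneg_right ?_ hc0.le
        obtain ⟨p1, p2, p3, p4⟩ := hpos j
        have h5 := hDj j
        linarith
    · rintro ω ⟨j, hj⟩
      rw [hG]
      show locP 𝒞 _ = 0
      unfold locP
      rw [if_neg]
      rintro ⟨-, h⟩
      exact hj (h j)
    · intro ω hω
      rw [hG]
      show |locP 𝒞 _ - _| ≤ _
      unfold locP
      rw [if_pos ⟨Ring.two_ne_zero hF, fun j => not_not.1 (hω j)⟩, hfj]
      have h1 := lval_expand hF 𝒞 (fun j => fpol (ω j)) D hD1 (fun j k hk => by rw [← hq, ← hs]; exact hT j (ω j) k hk)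
      rw [← hq, ← hs] at h1
      have e1 : zk 𝒞 (fun j => fpol (ω j)) 1 = zz 𝒞 (fun j (u : Idx (r j) (2 * g j + 1 - r j) → F) => (T (fpol u) 1 : ℝ) / s) ω := by
        unfold zk zz
        rw [← hq, ← hs]
        simp only [pow_one]
      have e2 : zk 𝒞 (fun j => fpol (ω j)) 2 = zz 𝒞 (fun j (u : Idx (r j) (2 * g j + 1 - r j) → F) => (T (fpol u) 2 : ℝ) / s ^ 2) ω := by
        unfold zk zz
        rw [← hq, ← hs]
      rw [e1, e2] at h1
      exact h1

end Q282.PX
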